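import Pool.Agent.Helper11.Geo

/-!
# Project TW: specialisation of the solutions of polynomial equations with integral coefficients

If the integral scheme `V` over `ℚ` has a dense set of rational points, then each solution in the
function field of a system of polynomial equations with integral coefficients specialises to a
rational solution, and a given nonzero coordinate stays nonzero.
-/

set_option autoImplicit false

open AlgebraicGeometry CategoryTheory

namespace Pool.Agent.Helper13.TW

theorem specialise {V : Scheme.{0}} [IsIntegral V] (f : V ⟶ Spec (CommRingCat.of ℚ))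
    {τ : Type} [Finite τ] (z : τ → V.functionField) {t₀ : τ} (h0 : z t₀ ≠ 0)
    (hdense : Dense (Pool.Agent.Helper11.rationalPoints f)) :
    ∃ z' : τ → ℚ, z' t₀ ≠ 0 ∧
      ∀ G : MvPolynomial τ ℤ, MvPolynomial.aeval z G = 0 → MvPolynomial.aeval z' G = 0 := by
  obtain ⟨m, ⟨e⟩⟩ := Finite.exists_equiv_fin τ
  obtain ⟨R, _, ι, b, zz, φ, hinj, hb, hzz, hφ⟩ :=
    Pool.Agent.Helper11.exists_specialisation f (fun i => z (e.symm i)) h0 hdense
  have hb' : ∀ t, ι (b (e t)) = z t := fun t => by rw [hb, Equiv.symm_apply_apply]
  refine ⟨fun t => φ (b (e t)), ?_, ?_⟩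
  · have h1 : zz = b (e t₀) := hinj (by rw [hzz, hb'])
    show φ (b (e t₀)) ≠ 0
    rw [← h1]
    exact hφ
  · intro G hG
    have h2 : ι (MvPolynomial.aeval (fun t => b (e t)) G) = 0 := by
      have h3 := MvPolynomial.comp_aeval_apply (R := ℤ) (f := fun t => b (e t)) ι.toIntAlgHom G
      have h4 : (fun t => ι.toIntAlgHom (b (e t))) = z := funext fun t => hb' t
      rw [h4, hG] at h3
      exact h3
    have h5 : MvPolynomial.aeval (fun t => b (e t)) G = 0 := hinj (by rw [h2, map_zero])
    have h6 := MvPolynomial.comp_aeval_apply (R := ℤ) (f := fun t => b (e t)) φ.toIntAlgHom G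
    rw [h5, map_zero] at h6
    exact h6.symm

end Pool.Agent.Helper13.TW
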