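import Pool.Agent.Helper13.TW.Cut
import Pool.Agent.Helper81.TW.Box

/-!
# Project TW: the bilinear bound
-/

set_option autoImplicit false

namespace Pool.Agent.Helper13.TW

theorem bilinear : Pool.Agent.Helper36.TW.Bilinear :=
  cut fun f g hf hg hfs hgs V X Y hV hX hY =>
    Pool.Agent.Helper81.TW.box hf hg hfs hgs V X Y hV hX hY

end Pool.Agent.Helper13.TW
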