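import Pool.Agent.Helper36.TW.Recip

/-!
# Project TW: from the bilinear bound in boxes to the bilinear bound under a hyperbola
-/

set_option autoImplicit false

open Finset

namespace Pool.Agent.Helper13.TW

open Pool.Agent.Helper36.TW

/-- the sum of `1 / x` -/
theorem Cut_harm (Z : ℕ) : ∑ x ∈ Icc 1 Z, (1 : ℝ) / x ≤ 1 + Real.log Z := by
  have h := harmonic_le_one_add_log Z
  rw [harmonic_eq_sum_Icc] at h
  push_cast at h
  refine le_trans (le_of_eq ?_) h
  exact sum_congr rfl fun x _ => by rw [one_div]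

/-- the cut, for a given `η` -/
theorem Cut_main (hbox : ∀ (f g : ℕ → ℝ), (∀ x, |f x| ≤ 1) → (∀ y, |g y| ≤ 1) →
    (∀ x, f x ≠ 0 → Odd x ∧ Squarefree x) → (∀ y, g y ≠ 0 → Odd y ∧ Squarefree y) →
    ∀ V X Y : ℕ, 1 ≤ V → V ≤ X → V ≤ Y →
    |∑ x ∈ Icc 1 X, ∑ y ∈ Icc 1 Y, f x * g y * (jacobiSym (y : ℤ) x : ℝ)| ≤
      4 * X * Y * (V : ℝ) ^ (-(1 / 4 : ℝ)) * (1 + Real.log X + Real.log Y))
    (f g : ℕ → ℝ) (hf1 : ∀ x, |f x| ≤ 1) (hg1 : ∀ y, |g y| ≤ 1)
    (hf : ∀ x, f x ≠ 0 → Odd x ∧ Squarefree x) (hg : ∀ y, g y ≠ 0 → Odd y ∧ Squarefree y)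
    (V Z : ℕ) (hV : 1 ≤ V) (hZ : 1 ≤ Z) (η : ℝ) (hη : 0 < η) (hη1 : η ≤ 1) :
    |∑ x ∈ Ioc V Z, ∑ y ∈ (Ioc V Z).filter (fun y => x * y ≤ Z),
        f x * g y * (jacobiSym (y : ℤ) x : ℝ)| ≤
      (2 / η * (1 + Real.log Z)) * (4 * Z * (V : ℝ) ^ (-(1 / 4 : ℝ)) * (1 + Real.log Z)) +
        (η * Z * (1 + Real.log Z) + Z / V) := by
  classical
  have hZ0 : (0 : ℝ) < Z := by exact_mod_cast hZ
  have hV0 : (0 : ℝ) < V := by exact_mod_cast hV
  have hlogZ : 0 ≤ Real.log Z := Real.log_natCast_nonneg Z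
  have hη' : (1 : ℝ) < 1 + η := by linarith
  set c := Real.log (1 + η) with hc
  have hc0 : 0 < c := Real.log_pos hη'
  have hc2 : η / 2 ≤ c := by
    have h1 := Real.one_sub_inv_le_log_of_pos (x := 1 + η) (by linarith)
    refine le_trans ?_ h1
    rw [le_sub_iff_add_le, ← le_sub_iff_add_le']
    rw [inv_le_iff_one_le_mul₀ (by linarith)]
    nlinarith
  -- the pieces
  let T : ℕ → ℝ := fun j => (1 + η) ^ (j + 1)
  have hT0 : ∀ j, 0 < T j := fun j => by positivity
  let ix : ℕ → ℕ := fun x => ⌊Real.log x / c⌋₊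
  have hix : ∀ x : ℕ, 1 ≤ x → (x : ℝ) < T (ix x) ∧ T (ix x) ≤ (1 + η) * x := by
    intro x hx
    have hx0 : (0 : ℝ) < x := by exact_mod_cast hx
    have hlx : 0 ≤ Real.log x := Real.log_natCast_nonneg x
    have h1 := Nat.lt_floor_add_one (Real.log x / c)
    have h2 := Nat.floor_le (div_nonneg hlx hc0.le)
    rw [div_lt_iff₀ hc0] at h1
    rw [le_div_iff₀ hc0] at h2
    constructor
    · show (x : ℝ) < (1 + η) ^ (ix x + 1)
      rw [← Real.log_lt_log_iff hx0 (by positivity), Real.log_pow]
      push_cast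
      exact h1
    · show (1 + η) ^ (ix x + 1) ≤ (1 + η) * x
      rw [pow_succ, mul_comm]
      apply mul_le_mul_of_nonneg_left _ (by linarith)
      rw [← Real.log_le_log_iff (by positivity) hx0, Real.log_pow]
      exact h2
  let X : ℕ → ℕ := fun j => ⌊T j⌋₊
  let Y : ℕ → ℕ := fun j => ⌊(Z : ℝ) / T j⌋₊
  set N := ⌊Real.log Z / c⌋₊ + 1 with hN
  let fj : ℕ → ℕ → ℝ := fun j x => if (V < x ∧ x ≤ Z) ∧ ix x = j then f x else 0
  let g' : ℕ → ℝ := fun y => if V < y ∧ y ≤ Z then g y else 0
  let H : ℕ → ℕ → ℝ := fun j x => ∑ y ∈ Icc 1 (Y j), g' y * (jacobiSym (y : ℤ) x : ℝ)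
  let h : ℕ → ℝ := fun x => ∑ y ∈ (Ioc V Z).filter (fun y => x * y ≤ Z),
    g y * (jacobiSym (y : ℤ) x : ℝ)
  let R : ℕ → ℝ := fun j => ∑ x ∈ Icc 1 (X j), ∑ y ∈ Icc 1 (Y j),
    fj j x * g' y * (jacobiSym (y : ℤ) x : ℝ)
  have hj1 : ∀ x y : ℕ, |(jacobiSym (y : ℤ) x : ℝ)| ≤ 1 := fun x y => abs_jac_le y x
  -- the rectangles
  have hR : ∀ j, |R j| ≤ 4 * Z * (V : ℝ) ^ (-(1 / 4 : ℝ)) * (1 + Real.log Z) := by
    intro j
    have hpos : 0 ≤ 4 * Z * (V : ℝ) ^ (-(1 / 4 : ℝ)) * (1 + Real.log Z) := by positivity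
    by_cases hX : V ≤ X j
    · by_cases hY : V ≤ Y j
      · have h1 := hbox (fj j) g' ?_ ?_ ?_ ?_ V (X j) (Y j) hV hX hY
        · refine h1.trans ?_
          have hX1 : (0 : ℝ) < X j := by exact_mod_cast (by omega : 0 < X j)
          have hY1 : (0 : ℝ) < Y j := by exact_mod_cast (by omega : 0 < Y j)
          have hXY : (X j : ℝ) * Y j ≤ Z := by
            have e1 : (X j : ℝ) ≤ T j := Nat.floor_le (hT0 j).le
            have e2 : (Y j : ℝ) ≤ Z / T j := Nat.floor_le (by have := hT0 j; positivity)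
            calc (X j : ℝ) * Y j ≤ T j * (Z / T j) := mul_le_mul e1 e2 hY1.le (hT0 j).le
              _ = Z := by
                have := (hT0 j).ne'
                field_simp
          have hlog : Real.log (X j) + Real.log (Y j) ≤ Real.log Z := by
            rw [← Real.log_mul hX1.ne' hY1.ne']
            exact Real.log_le_log (by positivity) hXY
          have hlX : 0 ≤ Real.log (X j) := Real.log_natCast_nonneg _
          have hlY : 0 ≤ Real.log (Y j) := Real.log_natCast_nonneg _
          calc 4 * (X j : ℝ) * Y j * (V : ℝ) ^ (-(1 / 4 : ℝ)) *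
                (1 + Real.log (X j) + Real.log (Y j))
              = 4 * ((X j : ℝ) * Y j) * (V : ℝ) ^ (-(1 / 4 : ℝ)) *
                (1 + (Real.log (X j) + Real.log (Y j))) := by ring
            _ ≤ 4 * Z * (V : ℝ) ^ (-(1 / 4 : ℝ)) * (1 + Real.log Z) := by
              apply mul_le_mul
              · apply mul_le_mul_of_nonneg_right _ (by positivity)
                linarith
              · linarith
              · positivity
              · positivity
        · intro x
          show |if (V < x ∧ x ≤ Z) ∧ ix x = j then f x else 0| ≤ 1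
          split_ifs
          · exact hf1 x
          · simp
        · intro y
          show |if V < y ∧ y ≤ Z then g y else 0| ≤ 1
          split_ifs
          · exact hg1 y
          · simp
        · intro x hx
          apply hf x
          intro h0
          apply hx
          show (if (V < x ∧ x ≤ Z) ∧ ix x = j then f x else 0) = 0
          rw [h0]
          simp
        · intro y hy
          apply hg y
          intro h0
          apply hy
          show (if V < y ∧ y ≤ Z then g y else 0) = 0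
          rw [h0]
          simp
      · have h0 : R j = 0 := by
          apply sum_eq_zero
          intro x _
          apply sum_eq_zero
          intro y hy
          have hy' := (mem_Icc.1 hy).2
          have : g' y = 0 := if_neg (by omega)
          rw [this]
          ring
        rw [h0, abs_zero]
        exact hpos
    · have h0 : R j = 0 := by
        apply sum_eq_zero
        intro x hx
        apply sum_eq_zero
        intro y _
        have hx' := (mem_Icc.1 hx).2
        have : fj j x = 0 := if_neg (by omega)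
        rw [this]
        ring
      rw [h0, abs_zero]
      exact hpos
  -- the sum of the rectangles
  have hsumR : ∑ j ∈ range N, R j = ∑ x ∈ Ioc V Z, f x * H (ix x) x := by
    have h1 : ∀ j, R j = ∑ x ∈ (Ioc V Z).filter (fun x => ix x = j), f x * H (ix x) x := by
      intro j
      have h2 : R j = ∑ x ∈ Icc 1 (X j), if (V < x ∧ x ≤ Z) ∧ ix x = j then f x * H j x else 0 := by
        apply sum_congr rfl
        intro x _
        by_cases hx : (V < x ∧ x ≤ Z) ∧ ix x = j
        · have e1 : fj j x = f x := if_pos hx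
          rw [if_pos hx, e1, mul_sum]
          exact sum_congr rfl fun y _ => by ring
        · have e1 : fj j x = 0 := if_neg hx
          rw [if_neg hx, e1]
          exact sum_eq_zero fun y _ => by ring
      rw [h2, ← sum_filter]
      have h3 : (Icc 1 (X j)).filter (fun x => (V < x ∧ x ≤ Z) ∧ ix x = j) =
          (Ioc V Z).filter (fun x => ix x = j) := by
        ext x
        simp only [mem_filter, mem_Icc, mem_Ioc]
        constructor
        · rintro ⟨_, h4, h5⟩
          exact ⟨h4, h5⟩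
        · rintro ⟨h4, h5⟩
          refine ⟨⟨by omega, ?_⟩, h4, h5⟩
          apply Nat.le_floor
          have := (hix x (by omega)).1
          rw [h5] at this
          exact this.le
      rw [h3]
      apply sum_congr rfl
      intro x hx
      rw [(mem_filter.1 hx).2]
    rw [sum_congr rfl fun j _ => h1 j]
    apply sum_fiberwise_of_maps_to
    intro x hx
    rw [mem_range, hN, Nat.lt_succ_iff]
    apply Nat.floor_le_floor
    apply div_le_div_of_nonneg_right _ hc0.le
    have hx' := mem_Ioc.1 hx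
    apply Real.log_le_log
    · exact_mod_cast (by omega : 0 < x)
    · exact_mod_cast hx'.2
  -- the boundary
  have hbd : ∀ x ∈ Ioc V Z, |h x - H (ix x) x| ≤ if x * V ≤ Z then η * Z * (1 / x) + 1 else 0 := by
    intro x hx
    have hx' := mem_Ioc.1 hx
    have hx0 : (0 : ℝ) < x := by exact_mod_cast (by omega : 0 < x)
    obtain ⟨t1, t2⟩ := hix x (by omega)
    set j := ix x with hj
    have hTj := hT0 j
    let A := (Ioc V Z).filter (fun y => x * y ≤ Z)
    let B := (Icc 1 (Y j)).filter (fun y => V < y ∧ y ≤ Z)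
    have hH : H j x = ∑ y ∈ B, g y * (jacobiSym (y : ℤ) x : ℝ) := by
      show ∑ y ∈ Icc 1 (Y j), (if V < y ∧ y ≤ Z then g y else 0) * (jacobiSym (y : ℤ) x : ℝ) = _
      rw [sum_filter]
      apply sum_congr rfl
      intro y _
      split_ifs <;> ring
    have hBA : B ⊆ A := by
      intro y hy
      have h1 := mem_filter.1 hy
      have h2 := (mem_Icc.1 h1.1).2
      rw [mem_filter, mem_Ioc]
      refine ⟨h1.2, ?_⟩
      have h3 : (y : ℝ) ≤ Z / T j := (Nat.le_floor_iff (by positivity)).1 h2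
      rw [le_div_iff₀ hTj] at h3
      have h4 : (x : ℝ) * y ≤ Z := by
        calc (x : ℝ) * y ≤ T j * y := mul_le_mul_of_nonneg_right t1.le (Nat.cast_nonneg y)
          _ = y * T j := mul_comm _ _
          _ ≤ Z := h3
      exact_mod_cast h4
    have hdiff : h x - H j x = ∑ y ∈ A \ B, g y * (jacobiSym (y : ℤ) x : ℝ) := by
      rw [hH]
      show ∑ y ∈ A, g y * (jacobiSym (y : ℤ) x : ℝ) - _ = _
      rw [← sum_sdiff hBA]
      ring
    have habs : |h x - H j x| ≤ ((A \ B).card : ℝ) := by
      rw [hdiff]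
      refine (abs_sum_le_sum_abs _ _).trans ?_
      rw [card_eq_sum_ones, Nat.cast_sum]
      apply sum_le_sum
      intro y _
      rw [abs_mul]
      push_cast
      calc |g y| * |(jacobiSym (y : ℤ) x : ℝ)| ≤ 1 * 1 :=
            mul_le_mul (hg1 y) (hj1 x y) (abs_nonneg _) zero_le_one
        _ = 1 := one_mul 1
    refine habs.trans ?_
    split_ifs with hxV
    · have hsub : A \ B ⊆ Ioc (Y j) (Z / x) := by
        intro y hy
        rw [mem_sdiff] at hy
        have h1 := mem_filter.1 hy.1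
        have h2 := mem_Ioc.1 h1.1
        rw [mem_Ioc]
        constructor
        · by_contra hcon
          apply hy.2
          rw [mem_filter, mem_Icc]
          exact ⟨⟨by omega, by omega⟩, h2⟩
        · rw [Nat.le_div_iff_mul_le (by omega)]
          rw [mul_comm]
          exact h1.2
      have hcard : ((A \ B).card : ℝ) ≤ ((Z / x - Y j : ℕ) : ℝ) := by
        have := card_le_card hsub
        rw [Nat.card_Ioc] at this
        exact_mod_cast this
      refine hcard.trans ?_
      have hYle : Y j ≤ Z / x := by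
        rw [Nat.le_div_iff_mul_le (by omega)]
        have h3 : (Y j : ℝ) ≤ Z / T j := Nat.floor_le (by positivity)
        rw [le_div_iff₀ hTj] at h3
        have h4 : (Y j : ℝ) * x ≤ Z :=
          (mul_le_mul_of_nonneg_left t1.le (Nat.cast_nonneg _)).trans h3
        exact_mod_cast h4
      rw [Nat.cast_sub hYle]
      have h5 : ((Z / x : ℕ) : ℝ) ≤ (Z : ℝ) / x := Nat.cast_div_le
      have h6 : (Z : ℝ) / T j < Y j + 1 := Nat.lt_floor_add_one _
      have h7 : (Z : ℝ) / x - Z / T j ≤ η * Z * (1 / x) := by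
        have h8 : (Z : ℝ) / ((1 + η) * x) ≤ Z / T j :=
          div_le_div_of_nonneg_left hZ0.le hTj t2
        have h9 : (Z : ℝ) / x - Z / ((1 + η) * x) = Z / x * (η / (1 + η)) := by
          field_simp
          ring
        have h10 : η / (1 + η) ≤ η := div_le_self hη.le (by linarith)
        calc (Z : ℝ) / x - Z / T j ≤ Z / x - Z / ((1 + η) * x) := by linarith
          _ = Z / x * (η / (1 + η)) := h9
          _ ≤ Z / x * η := mul_le_mul_of_nonneg_left h10 (by positivity)
          _ = η * Z * (1 / x) := by ring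
      linarith
    · have hA : A = ∅ := by
        rw [filter_eq_empty_iff]
        intro y hy hxy
        have h1 := mem_Ioc.1 hy
        apply hxV
        calc x * V ≤ x * y := Nat.mul_le_mul_left x h1.1.le
          _ ≤ Z := hxy
      rw [hA]
      simp
  -- assembly
  have hS : ∑ x ∈ Ioc V Z, ∑ y ∈ (Ioc V Z).filter (fun y => x * y ≤ Z),
        f x * g y * (jacobiSym (y : ℤ) x : ℝ) =
      ∑ j ∈ range N, R j + ∑ x ∈ Ioc V Z, f x * (h x - H (ix x) x) := by
    rw [hsumR, ← sum_add_distrib]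
    apply sum_congr rfl
    intro x _
    have : f x * H (ix x) x + f x * (h x - H (ix x) x) = f x * h x := by ring
    rw [this, mul_sum]
    exact sum_congr rfl fun y _ => by ring
  rw [hS]
  refine (abs_add_le _ _).trans ?_
  apply add_le_add
  · refine (abs_sum_le_sum_abs _ _).trans ?_
    refine (sum_le_sum fun j _ => hR j).trans ?_
    rw [sum_const, card_range, nsmul_eq_mul]
    apply mul_le_mul_of_nonneg_right _ (by positivity)
    rw [hN]
    push_cast
    have h1 : (⌊Real.log Z / c⌋₊ : ℝ) ≤ Real.log Z / c := Nat.floor_le (by positivity)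
    have h2 : Real.log Z / c ≤ Real.log Z / (η / 2) :=
      div_le_div_of_nonneg_left hlogZ (by positivity) hc2
    have h3 : (1 : ℝ) ≤ 2 / η := by
      rw [le_div_iff₀ hη]
      linarith
    have h4 : Real.log Z / (η / 2) = 2 / η * Real.log Z := by
      field_simp
    calc (⌊Real.log Z / c⌋₊ : ℝ) + 1 ≤ 2 / η * Real.log Z + 2 / η := by
          rw [← h4]
          linarith
      _ = 2 / η * (1 + Real.log Z) := by ring
  · refine (abs_sum_le_sum_abs _ _).trans ?_
    have h1 : ∀ x ∈ Ioc V Z, |f x * (h x - H (ix x) x)| ≤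
        if x * V ≤ Z then η * Z * (1 / x) + 1 else 0 := by
      intro x hx
      rw [abs_mul]
      calc |f x| * |h x - H (ix x) x| ≤ 1 * |h x - H (ix x) x| :=
            mul_le_mul_of_nonneg_right (hf1 x) (abs_nonneg _)
        _ = |h x - H (ix x) x| := one_mul _
        _ ≤ _ := hbd x hx
    refine (sum_le_sum h1).trans ?_
    rw [← sum_filter, sum_add_distrib]
    apply add_le_add
    · rw [← mul_sum]
      apply mul_le_mul_of_nonneg_left _ (by positivity)
      refine le_trans ?_ (Cut_harm Z)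
      apply sum_le_sum_of_subset_of_nonneg
      · intro x hx
        have h2 := mem_Ioc.1 (mem_filter.1 hx).1
        rw [mem_Icc]
        omega
      · intro x _ _
        positivity
    · rw [sum_const, nsmul_eq_mul, mul_one]
      have h2 : ((Ioc V Z).filter (fun x => x * V ≤ Z)).card ≤ Z / V := by
        have h3 : (Ioc V Z).filter (fun x => x * V ≤ Z) ⊆ Icc 1 (Z / V) := by
          intro x hx
          have h4 := mem_filter.1 hx
          have h5 := mem_Ioc.1 h4.1
          rw [mem_Icc, Nat.le_div_iff_mul_le (by omega)]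
          exact ⟨by omega, h4.2⟩
        have h6 := card_le_card h3
        rw [Nat.card_Icc, Nat.add_sub_cancel] at h6
        exact h6
      calc (((Ioc V Z).filter (fun x => x * V ≤ Z)).card : ℝ) ≤ ((Z / V : ℕ) : ℝ) := by
            exact_mod_cast h2
        _ ≤ Z / V := Nat.cast_div_le

/-- The hyperbola cut. -/
theorem cut (hbox : ∀ (f g : ℕ → ℝ), (∀ x, |f x| ≤ 1) → (∀ y, |g y| ≤ 1) →
    (∀ x, f x ≠ 0 → Odd x ∧ Squarefree x) → (∀ y, g y ≠ 0 → Odd y ∧ Squarefree y) →
    ∀ V X Y : ℕ, 1 ≤ V → V ≤ X → V ≤ Y →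
    |∑ x ∈ Icc 1 X, ∑ y ∈ Icc 1 Y, f x * g y * (jacobiSym (y : ℤ) x : ℝ)| ≤
      4 * X * Y * (V : ℝ) ^ (-(1 / 4 : ℝ)) * (1 + Real.log X + Real.log Y)) : Bilinear := by
  refine ⟨10, by norm_num, ?_⟩
  intro f g hf1 hg1 hf hg V Z hV
  rcases Nat.eq_zero_or_pos Z with hZ | hZ
  · subst hZ
    simp
  have hZ0 : (0 : ℝ) < Z := by exact_mod_cast hZ
  have hV1 : (1 : ℝ) ≤ V := by exact_mod_cast hV
  have hV0 : (0 : ℝ) < V := by linarith
  have hlogZ : 0 ≤ Real.log Z := Real.log_natCast_nonneg Z
  set η : ℝ := (V : ℝ) ^ (-(1 / 8 : ℝ)) with hηd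
  have hη : 0 < η := Real.rpow_pos_of_pos hV0 _
  have hη1 : η ≤ 1 := Real.rpow_le_one_of_one_le_of_nonpos hV1 (by norm_num)
  refine (Cut_main hbox f g hf1 hg1 hf hg V Z hV hZ η hη hη1).trans ?_
  have e1 : (V : ℝ) ^ (-(1 / 4 : ℝ)) = η * η := by
    rw [hηd, ← Real.rpow_add hV0]
    norm_num
  have e2 : (1 : ℝ) / V ≤ η := by
    rw [hηd, one_div, ← Real.rpow_neg_one]
    exact Real.rpow_le_rpow_of_exponent_le hV1 (by norm_num)
  have e3 : η ≤ (V : ℝ) ^ (-(1 / 10 : ℝ)) := by
    rw [hηd]
    exact Real.rpow_le_rpow_of_exponent_le hV1 (by norm_num)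
  set W := 1 + Real.log Z with hW
  have hW1 : 1 ≤ W := by linarith
  have h1 : 2 / η * W * (4 * Z * (η * η) * W) = 8 * (Z * η * W ^ 2) := by
    field_simp
    ring
  rw [e1, h1]
  have h2 : (Z : ℝ) / V ≤ Z * η := by
    rw [div_eq_mul_one_div]
    exact mul_le_mul_of_nonneg_left e2 hZ0.le
  have hW2 : W ≤ W ^ 3 := by nlinarith [mul_self_nonneg W, mul_nonneg (by linarith : (0:ℝ) ≤ W) (sub_nonneg.2 hW1)]
  have hW3 : W ^ 2 ≤ W ^ 3 := by nlinarith [mul_self_nonneg W]
  have hW4 : 1 ≤ W ^ 3 := by nlinarith [mul_self_nonneg W]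
  have hZη : 0 ≤ Z * η := by positivity
  calc 8 * (Z * η * W ^ 2) + (η * Z * W + Z / V)
      ≤ 8 * (Z * η * W ^ 3) + (Z * η * W ^ 3 + Z * η * W ^ 3) := by
        have a1 := mul_le_mul_of_nonneg_left hW3 hZη
        have a2 := mul_le_mul_of_nonneg_left hW2 hZη
        have a3 := mul_le_mul_of_nonneg_left hW4 hZη
        nlinarith
    _ = 10 * Z * η * W ^ 3 := by ring
    _ ≤ 10 * Z * (V : ℝ) ^ (-(1 / 10 : ℝ)) * W ^ 3 := by
        apply mul_le_mul_of_nonneg_right _ (by positivity)
        exact mul_le_mul_of_nonneg_left e3 (by positivity)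

end Pool.Agent.Helper13.TW
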