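import Mathlib

/-!
# Project TW: upper bound for the sum of a multiplicative function with values in `[0, 1]`
-/

set_option autoImplicit false

open Finset

namespace Pool.Agent.Helper13.TW

/-- squarefree numbers up to `N` -/
abbrev SF (N : ℕ) : Finset ℕ := (Icc 1 N).filter Squarefree

theorem sum_div_le (g : ℕ → ℝ) (hg : ∀ p, p.Prime → 0 ≤ g p) (N : ℕ) :
    ∑ m ∈ SF N, (∏ p ∈ m.primeFactors, g p) / m ≤
      Real.exp (∑ p ∈ (Icc 1 N).filter Nat.Prime, g p / p) := by
  classical
  set P := (Icc 1 N).filter Nat.Prime with hP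
  have hPp : ∀ p ∈ P, p.Prime := fun p hp => (mem_filter.1 hp).2
  have h1 : ∑ m ∈ SF N, (∏ p ∈ m.primeFactors, g p) / m ≤
      ∑ t ∈ P.powerset, ∏ p ∈ t, (g p / p) := by
    have h2 : ∑ m ∈ SF N, (∏ p ∈ m.primeFactors, g p) / m =
        ∑ t ∈ (SF N).image Nat.primeFactors, ∏ p ∈ t, (g p / p) := by
      rw [sum_image]
      · apply sum_congr rfl
        intro m hm
        have hsf : Squarefree m := (mem_filter.1 hm).2
        rw [prod_div_distrib]
        congr 1
        rw [← Nat.cast_prod, Nat.prod_primeFactors_of_squarefree hsf]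
      · intro a ha b hb hab
        have hsa : Squarefree a := (mem_filter.1 ha).2
        have hsb : Squarefree b := (mem_filter.1 hb).2
        rw [← Nat.prod_primeFactors_of_squarefree hsa, ← Nat.prod_primeFactors_of_squarefree hsb]
        have hab' : a.primeFactors = b.primeFactors := hab
        rw [hab']
    rw [h2]
    apply sum_le_sum_of_subset_of_nonneg
    · intro t ht
      obtain ⟨m, hm, rfl⟩ := mem_image.1 ht
      rw [mem_powerset]
      intro p hp
      have hm1 := (mem_Icc.1 (mem_filter.1 hm).1)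
      have hpp := Nat.prime_of_mem_primeFactors hp
      have hpd := Nat.dvd_of_mem_primeFactors hp
      rw [hP, mem_filter, mem_Icc]
      exact ⟨⟨hpp.one_lt.le, (Nat.le_of_dvd hm1.1 hpd).trans hm1.2⟩, hpp⟩
    · intro t ht _
      apply prod_nonneg
      intro p hp
      exact div_nonneg (hg p (hPp p (mem_powerset.1 ht hp))) (Nat.cast_nonneg p)
  refine h1.trans ?_
  rw [← prod_one_add, Real.exp_sum]
  apply prod_le_prod
  · intro p hp
    have : 0 ≤ g p / p := div_nonneg (hg p (hPp p hp)) (Nat.cast_nonneg p)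
    linarith
  · intro p hp
    have := Real.add_one_le_exp (g p / p)
    linarith

theorem sum_log_le (g : ℕ → ℝ) (hg : ∀ p, p.Prime → 0 ≤ g p ∧ g p ≤ 1) (N : ℕ) :
    ∑ m ∈ SF N, (∏ p ∈ m.primeFactors, g p) * Real.log m ≤
      ∑ k ∈ SF N, (∏ p ∈ k.primeFactors, g p) *
        ∑ p ∈ (Icc 1 (N / k)).filter Nat.Prime, Real.log p := by
  classical
  have hG : ∀ m : ℕ, 0 ≤ ∏ p ∈ m.primeFactors, g p := fun m =>
    prod_nonneg fun p hp => (hg p (Nat.prime_of_mem_primeFactors hp)).1
  have h1 : ∑ m ∈ SF N, (∏ p ∈ m.primeFactors, g p) * Real.log m =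
      ∑ x ∈ (SF N).sigma fun m => m.primeFactors,
        (∏ p ∈ x.1.primeFactors, g p) * Real.log (x.2 : ℕ) := by
    rw [sum_sigma]
    apply sum_congr rfl
    intro m hm
    have hsf : Squarefree m := (mem_filter.1 hm).2
    have hm0 : m ≠ 0 := hsf.ne_zero
    show (∏ p ∈ m.primeFactors, g p) * Real.log m =
      ∑ s ∈ m.primeFactors, (∏ p ∈ m.primeFactors, g p) * Real.log (s : ℕ)
    rw [← mul_sum]
    congr 1
    conv_lhs => rw [← Nat.prod_primeFactors_of_squarefree hsf]
    rw [Nat.cast_prod, Real.log_prod]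
    intro p hp
    exact_mod_cast (Nat.prime_of_mem_primeFactors hp).ne_zero
  have h2 : ∑ k ∈ SF N, (∏ p ∈ k.primeFactors, g p) *
        ∑ p ∈ (Icc 1 (N / k)).filter Nat.Prime, Real.log p =
      ∑ x ∈ (SF N).sigma fun k => (Icc 1 (N / k)).filter Nat.Prime,
        (∏ p ∈ x.1.primeFactors, g p) * Real.log (x.2 : ℕ) := by
    rw [sum_sigma]
    apply sum_congr rfl
    intro m _
    rw [mul_sum]
  rw [h1, h2]
  set S1 := (SF N).sigma fun m => m.primeFactors with hS1
  set S2 := (SF N).sigma fun k => (Icc 1 (N / k)).filter Nat.Prime with hS2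
  let i : (Σ _ : ℕ, ℕ) → (Σ _ : ℕ, ℕ) := fun x => ⟨x.1 / x.2, x.2⟩
  have hmem : ∀ x ∈ S1, 0 < x.1 ∧ x.1 ≤ N ∧ Squarefree x.1 ∧ x.2.Prime ∧ x.2 ∣ x.1 := by
    intro x hx
    rw [hS1, mem_sigma] at hx
    have h3 := mem_filter.1 hx.1
    have h4 := mem_Icc.1 h3.1
    exact ⟨h4.1, h4.2, h3.2, Nat.prime_of_mem_primeFactors hx.2, Nat.dvd_of_mem_primeFactors hx.2⟩
  have hinj : Set.InjOn i (S1 : Set (Σ _ : ℕ, ℕ)) := by
    intro x hx y hy hxy
    obtain ⟨a, p⟩ := x
    obtain ⟨b, q⟩ := y
    have hx' := hmem _ (mem_coe.1 hx)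
    have hy' := hmem _ (mem_coe.1 hy)
    simp only [i, Sigma.mk.injEq, heq_eq_eq] at hxy
    obtain ⟨h5, h6⟩ := hxy
    subst h6
    have h7 : a = a / p * p := (Nat.div_mul_cancel hx'.2.2.2.2).symm
    have h8 : b = b / p * p := (Nat.div_mul_cancel hy'.2.2.2.2).symm
    rw [h5] at h7
    rw [← h8] at h7
    rw [h7]
  calc ∑ x ∈ S1, (∏ p ∈ x.1.primeFactors, g p) * Real.log (x.2 : ℕ)
      ≤ ∑ x ∈ S1, (∏ p ∈ (i x).1.primeFactors, g p) * Real.log ((i x).2 : ℕ) := by
        apply sum_le_sum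
        intro x hx
        obtain ⟨a, p⟩ := x
        obtain ⟨ha, haN, hsf, hp, hpa⟩ := hmem _ hx
        simp only at ha haN hsf hp hpa
        obtain ⟨k, rfl⟩ := hpa
        have hk0 : k ≠ 0 := by rintro rfl; simp at ha
        have hcop : Nat.Coprime p k := by
          rw [Nat.Prime.coprime_iff_not_dvd hp]
          intro hd
          obtain ⟨l, rfl⟩ := hd
          have := hsf p ⟨l, by ring⟩
          exact hp.one_lt.ne' (Nat.isUnit_iff.1 this)
        simp only [i]
        rw [Nat.mul_div_cancel_left k hp.pos]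
        apply mul_le_mul_of_nonneg_right _ (Real.log_nonneg (by exact_mod_cast hp.one_lt.le))
        rw [Nat.Coprime.primeFactors_mul hcop, prod_union hcop.disjoint_primeFactors,
          hp.primeFactors, prod_singleton]
        exact mul_le_of_le_one_left (hG k) (hg p hp).2
    _ = ∑ y ∈ S1.image i, (∏ p ∈ y.1.primeFactors, g p) * Real.log (y.2 : ℕ) := by
        rw [sum_image hinj]
    _ ≤ ∑ y ∈ S2, (∏ p ∈ y.1.primeFactors, g p) * Real.log (y.2 : ℕ) := by
        apply sum_le_sum_of_subset_of_nonneg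
        · intro y hy
          obtain ⟨x, hx, rfl⟩ := mem_image.1 hy
          obtain ⟨a, p⟩ := x
          obtain ⟨ha, haN, hsf, hp, hpa⟩ := hmem _ hx
          simp only at ha haN hsf hp hpa
          obtain ⟨k, rfl⟩ := hpa
          have hk0 : 0 < k := Nat.pos_of_ne_zero (by rintro rfl; simp at ha)
          simp only [i]
          rw [Nat.mul_div_cancel_left k hp.pos, hS2, mem_sigma]
          refine ⟨?_, ?_⟩
          · rw [mem_filter, mem_Icc]
            refine ⟨⟨hk0, ?_⟩, hsf.squarefree_of_dvd ⟨p, by ring⟩⟩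
            exact (Nat.le_mul_of_pos_left k hp.pos).trans haN
          · rw [mem_filter, mem_Icc]
            refine ⟨⟨hp.one_lt.le, ?_⟩, hp⟩
            rw [Nat.le_div_iff_mul_le hk0]
            exact haN
        · intro y hy _
          apply mul_nonneg (hG _)
          rw [hS2, mem_sigma] at hy
          have hy2 := (mem_filter.1 hy.2).2
          exact Real.log_nonneg (by exact_mod_cast hy2.one_lt.le)

/-- Upper bound for the sum of a multiplicative function with values in `[0, 1]`. -/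
theorem wirs : ∃ C : ℝ, 0 < C ∧ ∀ g : ℕ → ℝ, (∀ p, p.Prime → 0 ≤ g p ∧ g p ≤ 1) →
    ∀ N : ℕ, 2 ≤ N → ∑ m ∈ (Finset.Icc 1 N).filter Squarefree, ∏ p ∈ m.primeFactors, g p ≤
      C * N / Real.log N *
        Real.exp (∑ p ∈ (Finset.Icc 1 N).filter Nat.Prime, g p / p) := by
  classical
  refine ⟨Real.log 4 + 1, by positivity, ?_⟩
  intro g hg N hN
  have hN0 : (0 : ℝ) < N := by exact_mod_cast (by omega : 0 < N)
  have hlog : 0 < Real.log N := Real.log_pos (by exact_mod_cast (by omega : 1 < N))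
  have hG : ∀ m : ℕ, 0 ≤ ∏ p ∈ m.primeFactors, g p := fun m =>
    prod_nonneg fun p hp => (hg p (Nat.prime_of_mem_primeFactors hp)).1
  set E := Real.exp (∑ p ∈ (Finset.Icc 1 N).filter Nat.Prime, g p / p) with hE
  have hD := sum_div_le g (fun p hp => (hg p hp).1) N
  have hL := sum_log_le g hg N
  -- the logarithmic part
  have h1 : ∑ m ∈ SF N, (∏ p ∈ m.primeFactors, g p) * Real.log m ≤ Real.log 4 * N * E := by
    refine hL.trans ?_
    have h2 : ∀ k ∈ SF N, (∏ p ∈ k.primeFactors, g p) *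
        ∑ p ∈ (Icc 1 (N / k)).filter Nat.Prime, Real.log p ≤
        Real.log 4 * N * ((∏ p ∈ k.primeFactors, g p) / k) := by
      intro k hk
      have hk0 : 0 < k := (mem_Icc.1 (mem_filter.1 hk).1).1
      have hk0' : (0 : ℝ) < k := by exact_mod_cast hk0
      have h3 : ∑ p ∈ (Icc 1 (N / k)).filter Nat.Prime, Real.log p ≤ Real.log 4 * (N / k) := by
        have h4 := Chebyshev.theta_le_log4_mul_x (x := (N : ℝ) / k) (by positivity)
        refine le_trans (le_of_eq ?_) h4
        unfold Chebyshev.theta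
        rw [Nat.floor_div_natCast, Nat.floor_natCast]
        apply sum_congr _ fun _ _ => rfl
        ext p
        simp only [mem_filter, mem_Icc, mem_Ioc, Nat.lt_iff_add_one_le, zero_add]
      calc (∏ p ∈ k.primeFactors, g p) * ∑ p ∈ (Icc 1 (N / k)).filter Nat.Prime, Real.log p
          ≤ (∏ p ∈ k.primeFactors, g p) * (Real.log 4 * (N / k)) :=
            mul_le_mul_of_nonneg_left h3 (hG k)
        _ = Real.log 4 * N * ((∏ p ∈ k.primeFactors, g p) / k) := by ring
    refine (sum_le_sum h2).trans ?_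
    rw [← mul_sum]
    exact mul_le_mul_of_nonneg_left hD (by positivity)
  have h5 : ∑ m ∈ SF N, (∏ p ∈ m.primeFactors, g p) * (Real.log N - Real.log m) ≤ N * E := by
    have h6 : ∀ m ∈ SF N, (∏ p ∈ m.primeFactors, g p) * (Real.log N - Real.log m) ≤
        N * ((∏ p ∈ m.primeFactors, g p) / m) := by
      intro m hm
      have hm0 : 0 < m := (mem_Icc.1 (mem_filter.1 hm).1).1
      have hm0' : (0 : ℝ) < m := by exact_mod_cast hm0
      have h7 : Real.log N - Real.log m ≤ N / m := by
        rw [← Real.log_div hN0.ne' hm0'.ne']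
        have := Real.log_le_sub_one_of_pos (div_pos hN0 hm0')
        linarith
      calc (∏ p ∈ m.primeFactors, g p) * (Real.log N - Real.log m)
          ≤ (∏ p ∈ m.primeFactors, g p) * (N / m) := mul_le_mul_of_nonneg_left h7 (hG m)
        _ = N * ((∏ p ∈ m.primeFactors, g p) / m) := by ring
    refine (sum_le_sum h6).trans ?_
    rw [← mul_sum]
    exact mul_le_mul_of_nonneg_left hD (by positivity)
  have h8 : (∑ m ∈ SF N, ∏ p ∈ m.primeFactors, g p) * Real.log N =
      ∑ m ∈ SF N, (∏ p ∈ m.primeFactors, g p) * Real.log m +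
        ∑ m ∈ SF N, (∏ p ∈ m.primeFactors, g p) * (Real.log N - Real.log m) := by
    rw [← sum_add_distrib, sum_mul]
    apply sum_congr rfl
    intro m _
    ring
  have h9 : (∑ m ∈ SF N, ∏ p ∈ m.primeFactors, g p) * Real.log N ≤ (Real.log 4 + 1) * N * E := by
    rw [h8]
    calc _ ≤ Real.log 4 * N * E + N * E := add_le_add h1 h5
      _ = (Real.log 4 + 1) * N * E := by ring
  have h10 : (Real.log 4 + 1) * N / Real.log N * E = (Real.log 4 + 1) * N * E / Real.log N := by
    ring
  rw [h10, le_div_iff₀ hlog]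
  exact h9

end Pool.Agent.Helper13.TW
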