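import Pool.Agent.Helper13.TW.Wirs

/-!
# Project TW: the mean value bound under an upper bound for the sum of `g p / p`
-/

set_option autoImplicit false

open Finset

namespace Pool.Agent.Helper13.TW

/-- If `∑_{p ≤ x} g p / p ≤ (1 - d) log log x + K` for all `x ≥ 2`, then the sum of
`∏_{p ∣ m} g p` over the squarefree `m ≤ N` is at most `C N (log N) ^ (-d)`. -/
theorem mult_bound2 (d K : ℝ) : ∃ C : ℝ, 0 < C ∧ ∀ g : ℕ → ℝ,
    (∀ p, p.Prime → 0 ≤ g p ∧ g p ≤ 1) →
    (∀ x : ℕ, 2 ≤ x → ∑ p ∈ (Finset.Icc 1 x).filter Nat.Prime, g p / p ≤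
      (1 - d) * Real.log (Real.log x) + K) →
    ∀ N : ℕ, 2 ≤ N → ∑ m ∈ (Finset.Icc 1 N).filter Squarefree, ∏ p ∈ m.primeFactors, g p ≤
      C * N * Real.log N ^ (-d) := by
  obtain ⟨C, hC, h⟩ := wirs
  refine ⟨C * Real.exp K, by positivity, ?_⟩
  intro g hg hs N hN
  have hN0 : (0 : ℝ) < N := by exact_mod_cast (by omega : 0 < N)
  have hlog : 0 < Real.log N := Real.log_pos (by exact_mod_cast (by omega : 1 < N))
  refine (h g hg N hN).trans ?_
  have h1 : Real.exp (∑ p ∈ (Finset.Icc 1 N).filter Nat.Prime, g p / p) ≤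
      Real.log N * Real.log N ^ (-d) * Real.exp K := by
    refine (Real.exp_le_exp.2 (hs N hN)).trans (le_of_eq ?_)
    rw [Real.exp_add]
    congr 1
    rw [mul_comm (1 - d), Real.exp_mul, Real.exp_log hlog, sub_eq_add_neg, Real.rpow_add hlog,
      Real.rpow_one]
  calc C * N / Real.log N * Real.exp (∑ p ∈ (Finset.Icc 1 N).filter Nat.Prime, g p / p)
      ≤ C * N / Real.log N * (Real.log N * Real.log N ^ (-d) * Real.exp K) :=
        mul_le_mul_of_nonneg_left h1 (by positivity)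
    _ = C * Real.exp K * N * Real.log N ^ (-d) := by
        field_simp

end Pool.Agent.Helper13.TW
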